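import Mathlib
import Pool.Agent.H.MP_6ac647_co.Two

set_option autoImplicit false

namespace Pool.Agent.Results.MP_6ac647_co.Counter

open Pool.Agent.H.MP_6ac647_co

def M (s t j : ℕ) : ℤ := ((s + t + j).choose 2 : ℤ) - j * (s + t) - 2 * t

lemma Meq (s t j : ℕ) (hs : 0 < s) : 2 * M s t j = 2 * ((s + t).choose 2 : ℤ) + j * (j - 1) - 4 * t ∧
    2 * M s t j = 2 * ((s + t - 1).choose 2 : ℤ) + j * (j - 1) + 2 * s - 2 * t - 2 := by
  have h : ∀ n : ℕ, 2 * (n.choose 2 : ℤ) + n = n * n := fun n => by exact_mod_cast ch2 n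
  obtain ⟨s, rfl⟩ : ∃ s', s = s' + 1 := ⟨s - 1, by omega⟩
  rw [show s + 1 + t - 1 = s + t by omega]
  have a := h (s + 1 + t + j)
  have b := h (s + 1 + t)
  have c := h (s + t)
  unfold M
  push_cast at a b c ⊢
  constructor <;> linarith

theorem result :
    (∀ s t j : ℕ, 2 < s → s ≤ t → 2 ≤ j → j + 3 ≤ t → ∃ w : ℕ, IsWsat (s + t + j) s t w ∧
      (s + t - 1).choose 2 ≤ w ∧ w ≤ (s + t).choose 2 + j * (s - 1) ∧
      w ≤ (s + t - 1).choose 2 + (j + 2).choose 2) ∧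
    (∀ (C : ℝ) (s : ℕ), 2 < s → ∃ t j w : ℕ, s ≤ t ∧ 2 ≤ j ∧ j + 3 ≤ t ∧
      IsWsat (s + t + j) s t w ∧ C * j < (M s t j : ℝ) - w) ∧
    ∀ (C : ℝ) (s j : ℕ), 2 < s → 2 ≤ j → ∃ t w : ℕ, s ≤ t ∧ j + 3 ≤ t ∧
      IsWsat (s + t + j) s t w ∧ C * j < (w : ℝ) - M s t j := by
  refine ⟨fun s t j a _ _ b => both s t j (by omega) (by omega), fun C s hs => ?_,
    fun C s j hs hj => ?_⟩
  · obtain ⟨c, hc⟩ := exists_nat_ge C
    obtain ⟨j, hj⟩ : ∃ j, j = 2 * s + 2 * c + 10 := ⟨_, rfl⟩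
    obtain ⟨w, w1, -, w2, -⟩ := both s (j + 3) j (by omega) (by omega)
    refine ⟨_, _, w, by omega, by omega, le_rfl, w1, ?_⟩
    have a := (Meq s (j + 3) j (by omega)).1
    generalize M s (j + 3) j = m at *
    generalize (s + (j + 3)).choose 2 = k at *
    obtain ⟨s, rfl⟩ : ∃ s', s = s' + 1 := ⟨s - 1, by omega⟩
    rw [Nat.add_sub_cancel] at w2
    have b : (w : ℝ) ≤ k + j * s := by exact_mod_cast w2
    have a' : 2 * (m : ℝ) = 2 * k + j * (j - 1) - 4 * (j + 3) := by exact_mod_cast a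
    have hj' : (j : ℝ) = 2 * (s + 1) + 2 * c + 10 := by exact_mod_cast hj
    have p1 : (0 : ℝ) ≤ s := by positivity
    have p2 : (0 : ℝ) ≤ c := by positivity
    have p3 : C * j ≤ c * j := mul_le_mul_of_nonneg_right hc (by positivity)
    have p4 : (j : ℝ) * j = j * (2 * (s + 1) + 2 * c + 10) := by rw [← hj']
    nlinarith
  · obtain ⟨c, hc⟩ := exists_nat_ge C
    obtain ⟨t, ht⟩ : ∃ t, t = s + j * j + c * j + 3 := ⟨_, rfl⟩
    have jj : j ≤ j * j := Nat.le_mul_self j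
    obtain ⟨w, w1, w2, -⟩ := both s t j (by omega) (by omega)
    refine ⟨t, w, by omega, by omega, w1, ?_⟩
    have a := (Meq s t j (by omega)).2
    generalize M s t j = m at *
    generalize (s + t - 1).choose 2 = k at *
    have b : (k : ℝ) ≤ w := by exact_mod_cast w2
    have a' : 2 * (m : ℝ) = 2 * k + j * (j - 1) + 2 * s - 2 * t - 2 := by exact_mod_cast a
    have ht' : (t : ℝ) = s + j * j + c * j + 3 := by exact_mod_cast ht
    have p1 : (0 : ℝ) ≤ j := by positivity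
    have p3 : C * j ≤ c * j := mul_le_mul_of_nonneg_right hc p1
    nlinarith

end Pool.Agent.Results.MP_6ac647_co.Counter
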